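import Pool.Agent.Lib52.NLSn.Defs

/-! Module E: all but countably many couplings have no eigenfunction at energy `1`. -/

set_option autoImplicit false

namespace NLSn

open MeasureTheory Filter Topology Set

namespace ModE

variable {n : ℕ}

lemma lap_cont {φ : E n → ℝ} (h : Test φ) : Continuous (lap φ) := by
  unfold lap
  refine continuous_finsetSum _ fun i _ => ?_
  have h1 : Continuous (iteratedFDeriv ℝ 2 φ) :=
    h.1.continuous_iteratedFDeriv (WithTop.coe_le_coe.2 (le_top : (2 : ℕ∞) ≤ ⊤))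
  have h2 := (ContinuousMultilinearMap.apply ℝ (fun _ : Fin 2 => E n) ℝ
    ![EuclideanSpace.single i (1 : ℝ), EuclideanSpace.single i (1 : ℝ)]).continuous
  exact h2.comp h1

lemma lap_supp {φ : E n → ℝ} (h : Test φ) : HasCompactSupport (lap φ) := by
  refine HasCompactSupport.mono (h.2.iteratedFDeriv (𝕜 := ℝ) 2) fun x hx => ?_
  rw [Function.mem_support] at hx ⊢
  intro h0
  exact hx (by simp [lap, h0])

lemma int_mul {f : E n → ℝ} (hf : MemLp f 2 volume) {g : E n → ℝ} (hg : Continuous g)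
    (hs : HasCompactSupport g) : Integrable (fun x => f x * g x) volume := by
  have h1 := (hf.locallyIntegrable (by norm_num)).integrable_smul_left_of_hasCompactSupport hg hs
  refine h1.congr (Eventually.of_forall fun x => ?_)
  simp [mul_comm]

lemma weakLap {V f : E n → ℝ} (hV : Continuous V) (hf : MemLp f 2 volume)
    (h : WeakEig V 1 f) : WeakLap f (fun x => (V x - 1) * f x) := by
  intro φ hφ
  have h1 := h φ hφ
  have i1 : Integrable (fun x => f x * lap φ x) volume := int_mul hf (lap_cont hφ) (lap_supp hφ)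
  have i2 : Integrable (fun x => f x * (V x * φ x)) volume :=
    int_mul hf (hV.mul hφ.1.continuous) (hφ.2.mul_left)
  have i3 : Integrable (fun x => f x * φ x) volume := int_mul hf hφ.1.continuous hφ.2
  have e1 : ∫ x, f x * (-(lap φ x) + V x * φ x)
      = -(∫ x, f x * lap φ x) + ∫ x, f x * (V x * φ x) := by
    have i1' : Integrable (fun x => -(f x * lap φ x)) volume := i1.neg
    rw [← integral_neg, ← integral_add i1' i2]
    refine integral_congr_ae (Eventually.of_forall fun x => ?_)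
    simp only
    ring
  have e2 : ∫ x, (V x - 1) * f x * φ x
      = (∫ x, f x * (V x * φ x)) - ∫ x, f x * φ x := by
    rw [← integral_sub i2 i3]
    refine integral_congr_ae (Eventually.of_forall fun x => ?_)
    simp only
    ring
  rw [e1] at h1
  rw [e2]
  linarith

lemma memLp_mul {f V : E n → ℝ} (hf : MemLp f 2 volume) (hV : Continuous V)
    (hb : ∃ K, ∀ x, |V x| ≤ K) : MemLp (fun x => V x * f x) 2 volume := by
  obtain ⟨K, hK⟩ := hb
  refine hf.of_le_mul (c := K) (hV.aestronglyMeasurable.mul hf.1) (Eventually.of_forall fun x => ?_)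
  rw [norm_mul, Real.norm_eq_abs]
  exact mul_le_mul_of_nonneg_right (hK x) (norm_nonneg _)

/-- an uncountable family of pairwise orthogonal nonzero vectors does not exist -/
lemma countable_of_orth {H : Type*} [NormedAddCommGroup H] [InnerProductSpace ℝ H]
    [TopologicalSpace.SeparableSpace H] {ι : Type*} (v : ι → H) (hv : ∀ i, v i ≠ 0)
    (ho : ∀ i j, i ≠ j → inner ℝ (v i) (v j) = 0) : Countable ι := by
  let w : ι → H := fun i => (‖v i‖)⁻¹ • v i
  have hw : ∀ i, ‖w i‖ = 1 := fun i => by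
    simp only [w, norm_smul, norm_inv, norm_norm]
    exact inv_mul_cancel₀ (norm_ne_zero_iff.2 (hv i))
  have hwo : ∀ i j, i ≠ j → inner ℝ (w i) (w j) = 0 := fun i j hij => by
    simp [w, inner_smul_left, inner_smul_right, ho i j hij]
  refine Pairwise.countable_of_isOpen_disjoint (s := fun i => Metric.ball (w i) (1 / 2))
    (fun i j hij => ?_) (fun i => Metric.isOpen_ball) (fun i => ⟨w i, by simp⟩)
  rw [Function.onFun, Set.disjoint_left]
  intro y hy1 hy2
  have h1 : ‖w i - w j‖ < 1 := by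
    rw [← dist_eq_norm]
    have := dist_triangle_right (w i) (w j) y
    rw [Metric.mem_ball, dist_comm] at hy1 hy2
    linarith
  have h2 : ‖w i - w j‖ ^ 2 = 2 := by
    rw [norm_sub_sq_real, hw, hw, hwo i j hij]
    norm_num
  nlinarith [norm_nonneg (w i - w j)]

end ModE

open ModE in
/-- module E, from module D -/
theorem stmtE (hD : StmtD) : StmtE := by
  intro n hn W u hW hu hWb hub hu0 ε0 hε0
  by_contra hcon
  push Not at hcon
  have hex : ∀ ε : Ioo (0 : ℝ) ε0, ∃ f : E n → ℝ, MemLp f 2 volume ∧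
      WeakEig (fun x => W x - ε.1 * u x ^ 2) 1 f ∧ ¬ f =ᵐ[volume] 0 := fun ε =>
    hcon ε.1 ε.2.1 ε.2.2
  choose f hf hfe hf0 using hex
  obtain ⟨KW, hKW⟩ := hWb
  obtain ⟨Ku, hKu⟩ := hub
  have hcV : ∀ ε : ℝ, Continuous fun x => W x - ε * u x ^ 2 := fun ε =>
    hW.sub (continuous_const.mul (hu.pow 2))
  have hmF : ∀ ε δ : Ioo (0 : ℝ) ε0,
      MemLp (fun x => ((W x - ε.1 * u x ^ 2) - 1) * f δ x) 2 volume := by
    intro ε δ
    refine memLp_mul (hf δ) ((hcV ε.1).sub continuous_const) ⟨KW + ε.1 * Ku ^ 2 + 1, fun x => ?_⟩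
    have h1 := abs_le.1 (hKW x)
    have h2 : u x ^ 2 ≤ Ku ^ 2 := by
      rw [← sq_abs]
      exact pow_le_pow_left₀ (abs_nonneg _) (hKu x) 2
    have h3 : 0 ≤ ε.1 * u x ^ 2 := mul_nonneg ε.2.1.le (sq_nonneg _)
    have h4 : ε.1 * u x ^ 2 ≤ ε.1 * Ku ^ 2 := mul_le_mul_of_nonneg_left h2 ε.2.1.le
    rw [abs_le]
    constructor <;> linarith
  have hmu : ∀ ε : Ioo (0 : ℝ) ε0, MemLp (fun x => u x * f ε x) 2 volume := fun ε =>
    memLp_mul (hf ε) hu ⟨Ku, hKu⟩
  let v : Ioo (0 : ℝ) ε0 → Lp ℝ 2 (volume : Measure (E n)) := fun ε => (hmu ε).toLp _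
  have : Fact ((2 : ENNReal) ≠ ⊤) := ⟨by norm_num⟩
  have : TopologicalSpace.SeparableSpace (Lp ℝ 2 (volume : Measure (E n))) := inferInstance
  have hc : Countable (Ioo (0 : ℝ) ε0) := by
    refine countable_of_orth v (fun ε h0 => ?_) (fun ε δ hne => ?_)
    · -- nonzero
      have h1 : (fun x => u x * f ε x) =ᵐ[volume] 0 := by
        have h2 := (hmu ε).coeFn_toLp
        have h3 : ((v ε : Lp ℝ 2 (volume : Measure (E n))) : E n → ℝ) =ᵐ[volume] 0 := by
          rw [h0]; exact Lp.coeFn_zero _ _ _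
        exact h2.symm.trans h3
      have h2 : ∀ᵐ x ∂(volume : Measure (E n)), u x ≠ 0 := by
        rw [ae_iff]
        simpa using hu0
      refine hf0 ε ?_
      filter_upwards [h1, h2] with x hx1 hx2
      exact (mul_eq_zero.1 hx1).resolve_left hx2
    · -- orthogonal
      have h1 := (hD n hn (f ε) _ (f δ) _ (hf ε) (hmF ε ε) (hf δ) (hmF δ δ)
        (weakLap (hcV ε.1) (hf ε) (hfe ε)) (weakLap (hcV δ.1) (hf δ) (hfe δ))).1
      have i1 : Integrable (fun x => ((W x - ε.1 * u x ^ 2) - 1) * f ε x * f δ x) volume :=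
        (hmF ε ε).integrable_mul (hf δ)
      have i2 : Integrable (fun x => f ε x * (((W x - δ.1 * u x ^ 2) - 1) * f δ x)) volume :=
        (hf ε).integrable_mul (hmF δ δ)
      have h2 : (δ.1 - ε.1) * ∫ x, (u x * f ε x) * (u x * f δ x) = 0 := by
        rw [← integral_const_mul]
        have h3 : ∫ x, (δ.1 - ε.1) * ((u x * f ε x) * (u x * f δ x))
            = (∫ x, ((W x - ε.1 * u x ^ 2) - 1) * f ε x * f δ x)
              - ∫ x, f ε x * (((W x - δ.1 * u x ^ 2) - 1) * f δ x) := by
          rw [← integral_sub i1 i2]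
          refine integral_congr_ae (Eventually.of_forall fun x => ?_)
          simp only
          ring
        rw [h3, h1, sub_self]
      have h3 : ∫ x, (u x * f ε x) * (u x * f δ x) = 0 :=
        (mul_eq_zero.1 h2).resolve_left (sub_ne_zero.2 fun h => hne (Subtype.ext h.symm))
      rw [L2.inner_def, ← h3]
      refine integral_congr_ae ?_
      filter_upwards [(hmu ε).coeFn_toLp, (hmu δ).coeFn_toLp] with x h1 h2
      simp only [v]
      rw [h1, h2]
      simp [mul_comm]
  have h1 : (Ioo (0 : ℝ) ε0).Countable := hc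
  exact absurd (Cardinal.Real.Ioo_countable_iff.1 h1) (not_le.2 hε0)

end NLSn
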