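import Pool.Agent.Lib52.NLSn.Final
import Pool.Agent.Lib52.NLSn.NonRes
import Pool.Agent.Lib_helper65.NLSn.E
import Pool.Agent.Lib_helper97.NLSn.A
import Pool.Agent.Lib_helper97.NLSn.D
import Pool.Agent.Lib_helper34.NLSn.B

/-! Module H2: no eigenvalue. -/

set_option autoImplicit false

namespace NLSn

open MeasureTheory Filter Topology Set

namespace ModH2

variable {n : ℕ}

/-- uniqueness for a linear second order equation -/
lemma ode_zero {G G' a : ℝ → ℝ} (ha : Continuous a) (hG : ∀ τ, HasDerivAt G (G' τ) τ)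
    (hG' : ∀ τ, HasDerivAt G' (a τ * G τ) τ) (t0 : ℝ) (h0 : G t0 = 0) (h0' : G' t0 = 0) (t : ℝ) :
    G t = 0 := by
  set A : ℝ := min t t0 - 1
  set B : ℝ := max t t0 + 1
  have hA1 : A < t := by have := min_le_left t t0; simp only [A]; linarith
  have hA2 : A < t0 := by have := min_le_right t t0; simp only [A]; linarith
  have hB1 : t < B := by have := le_max_left t t0; simp only [B]; linarith
  have hB2 : t0 < B := by have := le_max_right t t0; simp only [B]; linarith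
  obtain ⟨K0, hK0⟩ := (isCompact_Icc (a := A) (b := B)).exists_bound_of_continuousOn
    ha.continuousOn
  let K : NNReal := ⟨max 1 |K0|, le_max_of_le_left zero_le_one⟩
  let v : ℝ → ℝ × ℝ → ℝ × ℝ := fun τ x => (x.2, a τ * x.1)
  have hv : ∀ τ ∈ Ioo A B, LipschitzOnWith K (v τ) univ := by
    intro τ hτ
    refine LipschitzWith.lipschitzOnWith (LipschitzWith.of_dist_le_mul fun x y => ?_)
    have h1 : |a τ| ≤ max 1 |K0| :=
      ((hK0 τ (Ioo_subset_Icc_self hτ)).trans (le_abs_self K0)).trans (le_max_right _ _)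
    change max (dist x.2 y.2) (dist (a τ * x.1) (a τ * y.1)) ≤ (max 1 |K0|) * max (dist x.1 y.1) (dist x.2 y.2)
    have hm : (1 : ℝ) ≤ max 1 |K0| := le_max_left _ _
    have hd1 : 0 ≤ dist x.1 y.1 := dist_nonneg
    have hd2 : 0 ≤ dist x.2 y.2 := dist_nonneg
    refine max_le ?_ ?_
    · calc dist x.2 y.2 = 1 * dist x.2 y.2 := (one_mul _).symm
        _ ≤ max 1 |K0| * max (dist x.1 y.1) (dist x.2 y.2) := by
          gcongr
          exact le_max_right _ _
    · have e : dist (a τ * x.1) (a τ * y.1) = |a τ| * dist x.1 y.1 := by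
        rw [Real.dist_eq, Real.dist_eq, ← mul_sub, abs_mul]
      rw [e]
      gcongr
      exact le_max_left _ _
  have h := ODE_solution_unique_of_mem_Ioo (v := v) (K := K) (s := fun _ => univ) (a := A) (b := B)
    (t₀ := t0) (f := fun τ => (G τ, G' τ)) (g := fun _ => (0, 0)) hv ⟨hA2, hB2⟩
    (fun τ _ => ⟨(hG τ).prodMk (hG' τ), trivial⟩)
    (fun τ _ => ⟨by
      have : v τ (0, 0) = (0, 0) := by simp [v]
      rw [this]
      exact hasDerivAt_const τ _, trivial⟩) (by simp [h0, h0'])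
  have h1 := h (show t ∈ Ioo A B from ⟨hA1, hB1⟩)
  exact congrArg Prod.fst h1

lemma weakLap' {V f : E n → ℝ} (hV : Continuous V) (hf : MemLp f 2 volume) {lam : ℝ}
    (h : WeakEig V lam f) : WeakLap f (fun x => (V x - lam) * f x) := by
  intro φ hφ
  have h1 := h φ hφ
  have i1 : Integrable (fun x => f x * lap φ x) volume :=
    ModE.int_mul hf (ModE.lap_cont hφ) (ModE.lap_supp hφ)
  have i2 : Integrable (fun x => f x * (V x * φ x)) volume :=
    ModE.int_mul hf (hV.mul hφ.1.continuous) (hφ.2.mul_left)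
  have i3 : Integrable (fun x => f x * φ x) volume := ModE.int_mul hf hφ.1.continuous hφ.2
  have e1 : ∫ x, f x * (-(lap φ x) + V x * φ x)
      = -(∫ x, f x * lap φ x) + ∫ x, f x * (V x * φ x) := by
    have i1' : Integrable (fun x => -(f x * lap φ x)) volume := i1.neg
    rw [← integral_neg, ← integral_add i1' i2]
    refine integral_congr_ae (Eventually.of_forall fun x => ?_)
    simp only
    ring
  have e2 : ∫ x, (V x - lam) * f x * φ x
      = (∫ x, f x * (V x * φ x)) - lam * ∫ x, f x * φ x := by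
    rw [← integral_const_mul, ← integral_sub i2 (i3.const_mul lam)]
    refine integral_congr_ae (Eventually.of_forall fun x => ?_)
    simp only
    ring
  rw [e1] at h1
  rw [e2]
  linarith

/-- nonpositive energies -/
lemma neg_case (hn : 1 ≤ n) {V f : E n → ℝ} (hV : Continuous V) (hb : ∃ K, ∀ x, |V x| ≤ K)
    (hpos : ∀ x, 0 < V x) {lam : ℝ} (hlam : lam ≤ 0) (hf : MemLp f 2 volume)
    (h : WeakEig V lam f) : f =ᵐ[volume] 0 := by
  obtain ⟨K, hK⟩ := hb
  have hF : MemLp (fun x => (V x - lam) * f x) 2 volume :=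
    ModE.memLp_mul hf (hV.sub continuous_const) ⟨K + |lam|, fun x =>
      (abs_sub _ _).trans (add_le_add (hK x) le_rfl)⟩
  have h1 := (stmtD n hn f _ f _ hf hF hf hF (weakLap' hV hf h) (weakLap' hV hf h)).2
  have hi : Integrable (fun x => (V x - lam) * f x * f x) volume := hF.integrable_mul hf
  have hnn : ∀ x, 0 ≤ (V x - lam) * f x * f x := fun x => by
    rw [mul_assoc]
    have := hpos x
    exact mul_nonneg (by linarith) (mul_self_nonneg _)
  have h2 : ∫ x, (V x - lam) * f x * f x = 0 :=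
    le_antisymm h1 (integral_nonneg hnn)
  rw [integral_eq_zero_iff_of_nonneg hnn hi] at h2
  filter_upwards [h2] with x hx
  have h3 : (V x - lam) * f x * f x = 0 := hx
  have h4 : V x - lam ≠ 0 := by have := hpos x; intro h0; linarith
  rcases mul_eq_zero.1 h3 with h5 | h5
  · exact (mul_eq_zero.1 h5).resolve_left h4
  · exact h5

/-- change of variables `r = exp τ` -/
lemma integrable_exp {G : ℝ → ℝ} (h : Integrable (fun τ => Real.exp (2 * τ) * G τ ^ 2) volume)
    {X : ℝ} (hX : 0 < X) :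
    IntegrableOn (fun r => (√r * G (Real.log r)) ^ 2) (Ioi X) volume := by
  have himg : Real.exp '' (Ioi (Real.log X)) = Ioi X := by
    ext r
    simp only [mem_image, mem_Ioi]
    constructor
    · rintro ⟨τ, hτ, rfl⟩
      rw [← Real.exp_log hX]
      exact Real.exp_lt_exp.2 hτ
    · intro hr
      have hr0 : 0 < r := hX.trans hr
      exact ⟨Real.log r, Real.log_lt_log hX hr, Real.exp_log hr0⟩
  rw [← himg, integrableOn_image_iff_integrableOn_abs_deriv_smul (f := Real.exp)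
    (f' := Real.exp) measurableSet_Ioi (fun x _ => (Real.hasDerivAt_exp x).hasDerivWithinAt)
    Real.exp_injective.injOn]
  refine h.integrableOn.congr_fun (fun τ _ => ?_) measurableSet_Ioi
  simp only [smul_eq_mul, Real.log_exp, mul_pow]
  rw [Real.sq_sqrt (Real.exp_pos τ).le, abs_of_pos (Real.exp_pos τ), two_mul, Real.exp_add]
  ring

/-- positive nonresonant energies -/
lemma pos_case (hn : 1 ≤ n) {v : ℝ → ℝ} (hv : Continuous v)
    (osc : ∀ ν : ℝ, ∃ (X K : ℝ) (p p' q q' s c h e : ℝ → ℝ), 0 < X ∧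
    (∀ r, X ≤ r → HasDerivAt p (p' r) r) ∧ (∀ r, X ≤ r → HasDerivAt q (q' r) r) ∧
    (∀ r, X ≤ r → HasDerivAt s (2 * (1 + h r) * c r) r) ∧
    (∀ r, X ≤ r → HasDerivAt c (-(2 * (1 + h r) * s r)) r) ∧
    (∀ r, X ≤ r → |p r| ≤ K / r) ∧ (∀ r, X ≤ r → |p' r| ≤ K / r ^ 2) ∧
    (∀ r, X ≤ r → |q r| ≤ K / r) ∧ (∀ r, X ≤ r → |q' r| ≤ K / r ^ 2) ∧
    (∀ r, X ≤ r → |h r| ≤ K / r) ∧ (∀ r, X ≤ r → |e r| ≤ K / r ^ 2) ∧
    (∀ r, X ≤ r → |s r| ≤ 1) ∧ (∀ r, X ≤ r → |c r| ≤ 1) ∧
    (∀ r, X ≤ r → v r + ν / r ^ 2 = p r + q r * s r + e r))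
    {lam : ℝ} (hlam : 0 < lam) (hlam1 : lam ≠ 1) {f : E n → ℝ} (hf : MemLp f 2 volume)
    (h : WeakEig (fun x => v ‖x‖) lam f) : f =ᵐ[volume] 0 := by
  refine stmtA n hn f (hf.locallyIntegrable (by norm_num)) fun l Y hY κ hκ hκs => ?_
  obtain ⟨G, G', hG, hG', hint, hκf⟩ := stmtB n hn v hv lam f hf h l Y hY
  rw [hκf κ hκ.continuous hκs]
  set μ : ℝ := (l : ℝ) + ((n : ℝ) - 2) / 2 with hμ
  obtain ⟨X, K, p, p', q, q', s, c, hh, e, hX, h1, h2, h3, h4, h5, h6, h7, h8, h9, h10, h11, h12,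
    h13⟩ := osc (μ ^ 2 - 1 / 4)
  -- the radial function
  let y : ℝ → ℝ := fun r => √r * G (Real.log r)
  let y' : ℝ → ℝ := fun r => (√r)⁻¹ * (G (Real.log r) / 2 + G' (Real.log r))
  have hy : ∀ r, X ≤ r → HasDerivAt y (y' r) r := by
    intro r hr
    have hr0 : 0 < r := hX.trans_le hr
    have hs : HasDerivAt (fun r => √r) (1 / (2 * √r)) r := Real.hasDerivAt_sqrt hr0.ne'
    have hl : HasDerivAt Real.log r⁻¹ r := Real.hasDerivAt_log hr0.ne'
    have hGl : HasDerivAt (fun r => G (Real.log r)) (G' (Real.log r) * r⁻¹) r :=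
      (hG (Real.log r)).comp r hl
    have := hs.mul hGl
    refine this.congr_deriv ?_
    have hsq : √r * √r = r := Real.mul_self_sqrt hr0.le
    have hsr : √r ≠ 0 := (Real.sqrt_pos.2 hr0).ne'
    have e1 : r⁻¹ = (√r)⁻¹ * (√r)⁻¹ := by rw [← mul_inv, hsq]
    simp only [y']
    rw [e1]
    field_simp
  have hy' : ∀ r, X ≤ r → HasDerivAt y' ((p r + q r * s r + e r - lam) * y r) r := by
    intro r hr
    have hr0 : 0 < r := hX.trans_le hr
    have hs : HasDerivAt (fun r => √r) (1 / (2 * √r)) r := Real.hasDerivAt_sqrt hr0.ne'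
    have hsr : √r ≠ 0 := (Real.sqrt_pos.2 hr0).ne'
    have hl : HasDerivAt Real.log r⁻¹ r := Real.hasDerivAt_log hr0.ne'
    have hGl : HasDerivAt (fun r => G (Real.log r)) (G' (Real.log r) * r⁻¹) r :=
      (hG (Real.log r)).comp r hl
    have hGl' : HasDerivAt (fun r => G' (Real.log r)) (((μ ^ 2 +
      Real.exp (2 * Real.log r) * (v (Real.exp (Real.log r)) - lam)) * G (Real.log r)) * r⁻¹) r :=
      (hG' (Real.log r)).comp r hl
    have hinv : HasDerivAt (fun r => (√r)⁻¹) (-(1 / (2 * √r)) / √r ^ 2) r := hs.inv hsr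
    have hsum : HasDerivAt (fun r => G (Real.log r) / 2 + G' (Real.log r))
      (G' (Real.log r) * r⁻¹ / 2 + ((μ ^ 2 +
      Real.exp (2 * Real.log r) * (v (Real.exp (Real.log r)) - lam)) * G (Real.log r)) * r⁻¹) r :=
      (hGl.div_const 2).add hGl'
    have hsq : √r * √r = r := Real.mul_self_sqrt hr0.le
    have hexp : Real.exp (2 * Real.log r) = r ^ 2 := by
      rw [two_mul, Real.exp_add, Real.exp_log hr0]; ring
    rw [hexp, Real.exp_log hr0] at hsum
    have hprod : HasDerivAt y' (-(1 / (2 * √r)) / √r ^ 2 * (G (Real.log r) / 2 + G' (Real.log r)) +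
      (√r)⁻¹ * (G' (Real.log r) * r⁻¹ / 2 + ((μ ^ 2 +
      r ^ 2 * (v r - lam)) * G (Real.log r)) * r⁻¹)) r := hinv.mul hsum
    refine hprod.congr_deriv ?_
    rw [← h13 r hr]
    simp only [y]
    obtain ⟨σ, hσ⟩ : ∃ σ, σ = √r := ⟨_, rfl⟩
    obtain ⟨g, hg⟩ : ∃ g, g = G (Real.log r) := ⟨_, rfl⟩
    obtain ⟨g', hg'⟩ : ∃ g', g' = G' (Real.log r) := ⟨_, rfl⟩
    obtain ⟨w, hw⟩ : ∃ w, w = v r := ⟨_, rfl⟩
    rw [← hσ] at hsq hsr ⊢
    rw [← hg, ← hg', ← hw, ← hsq]
    field_simp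
    ring
  have hyint : IntegrableOn (fun r => y r ^ 2) (Ioi X) volume := integrable_exp hint hX
  obtain ⟨r0, hr0, hz, hz'⟩ := stmtC p p' q q' s c hh e y y' lam X K hX hlam hlam1 h1 h2 h3 h4 h5
    h6 h7 h8 h9 h10 h11 h12 hy hy' hyint
  have hr0' : 0 < r0 := hX.trans_le hr0
  have hsr : √r0 ≠ 0 := (Real.sqrt_pos.2 hr0').ne'
  have hG0 : G (Real.log r0) = 0 := (mul_eq_zero.1 hz).resolve_left hsr
  have hG0' : G' (Real.log r0) = 0 := by
    have := (mul_eq_zero.1 hz').resolve_left (inv_ne_zero hsr)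
    rw [hG0] at this
    simpa using this
  have hGz : ∀ t, G t = 0 := ode_zero (a := fun τ => μ ^ 2 +
    Real.exp (2 * τ) * (v (Real.exp τ) - lam)) (by fun_prop) hG hG' (Real.log r0) hG0 hG0'
  simp [hGz]

lemma int_mulC {f : E n → ℂ} (hf : MemLp f 2 volume) {g : E n → ℝ} (hg : Continuous g)
    (hs : HasCompactSupport g) : Integrable (fun x => f x * ((g x : ℝ) : ℂ)) volume := by
  have h1 := (hf.locallyIntegrable (by norm_num)).integrable_smul_left_of_hasCompactSupport hg hs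
  refine h1.congr (Eventually.of_forall fun x => ?_)
  simp [mul_comm]

end ModH2

open ModH2 in
/-- module H2 -/
theorem stmtH2 : StmtH2 := by
  intro n m hn hm W U hP ε0 hε0 hVpos
  have hWc : Continuous W := hP.smoothW.continuous
  have hUc : Continuous U := hP.smoothU.continuous
  -- `W` is bounded
  have hWb : ∃ K, ∀ r, 0 ≤ r → |W r| ≤ K := by
    obtain ⟨C, r1, h1⟩ := hP.decV 0 0
    set R : ℝ := max r1 1
    obtain ⟨K, hK⟩ := (isCompact_Icc (a := (0 : ℝ)) (b := R)).exists_bound_of_continuousOn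
      hWc.continuousOn
    refine ⟨max K |C|, fun r hr => ?_⟩
    rcases le_or_gt r R with h | h
    · exact (hK r ⟨hr, h⟩).trans (le_max_left _ _)
    · have h2 := h1 r ((le_max_left _ _).trans h.le)
      simp only [iteratedDeriv_zero, zero_mul, sub_zero] at h2
      have h3 : 1 ≤ r := (le_max_right r1 1).trans h.le
      refine (h2.trans ?_).trans (le_max_right _ _)
      rw [div_le_iff₀ (by linarith)]
      nlinarith [le_abs_self C, abs_nonneg C]
  have hUb : ∃ K, ∀ r, 0 ≤ r → |U r| ≤ K := by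
    obtain ⟨C, hC⟩ := hP.decU
    refine ⟨|C|, fun r hr => (hC r hr).1.trans ?_⟩
    have h1 : (1 + r) ^ (-(((n : ℝ) - 1) / 2 + 2 * m)) ≤ 1 := by
      apply Real.rpow_le_one_of_one_le_of_nonpos (by linarith)
      have : (1 : ℝ) ≤ n := by exact_mod_cast hn
      have : (0 : ℝ) ≤ m := by positivity
      linarith
    have h2 : 0 ≤ (1 + r) ^ (-(((n : ℝ) - 1) / 2 + 2 * m)) := by positivity
    calc C * (1 + r) ^ (-(((n : ℝ) - 1) / 2 + 2 * m))
        ≤ |C| * (1 + r) ^ (-(((n : ℝ) - 1) / 2 + 2 * m)) := by gcongr; exact le_abs_self C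
      _ ≤ |C| * 1 := by gcongr
      _ = |C| := mul_one _
  obtain ⟨KW, hKW⟩ := hWb
  obtain ⟨KU, hKU⟩ := hUb
  have hnt : Nontrivial (E n) := by
    have : Nonempty (Fin n) := ⟨⟨0, hn⟩⟩
    infer_instance
  have hzero : volume {x : E n | U ‖x‖ = 0} = 0 := by
    have hsub : {x : E n | U ‖x‖ = 0} ⊆ ⋃ r ∈ {r : ℝ | 0 ≤ r ∧ U r = 0}, Metric.sphere (0 : E n) r := by
      intro x hx
      refine mem_iUnion₂.2 ⟨‖x‖, ⟨norm_nonneg x, hx⟩, by simp⟩
    refine measure_mono_null hsub ((measure_biUnion_null_iff hP.zeros).2 fun r _ => ?_)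
    exact Measure.addHaar_sphere volume 0 r
  obtain ⟨ε, hε, hεε, hres⟩ := (stmtE stmtD) n hn (fun x => W ‖x‖) (fun x => U ‖x‖)
    (hWc.comp continuous_norm) (hUc.comp continuous_norm) ⟨KW, fun x => hKW _ (norm_nonneg x)⟩
    ⟨KU, fun x => hKU _ (norm_nonneg x)⟩ hzero ε0 hε0
  refine ⟨ε, hε, hεε, ?_⟩
  have hv : Continuous fun r => W r - ε * U r ^ 2 := by fun_prop
  have hV : Continuous fun x : E n => W ‖x‖ - ε * U ‖x‖ ^ 2 := hv.comp continuous_norm
  have hVb : ∃ K, ∀ x : E n, |W ‖x‖ - ε * U ‖x‖ ^ 2| ≤ K := by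
    refine ⟨KW + ε * KU ^ 2, fun x => ?_⟩
    have h1 := hKW _ (norm_nonneg x)
    have h2 := hKU _ (norm_nonneg x)
    have h3 : |U ‖x‖| ^ 2 ≤ KU ^ 2 := pow_le_pow_left₀ (abs_nonneg _) h2 2
    calc |W ‖x‖ - ε * U ‖x‖ ^ 2| ≤ |W ‖x‖| + |ε * U ‖x‖ ^ 2| := abs_sub _ _
      _ = |W ‖x‖| + ε * |U ‖x‖| ^ 2 := by rw [abs_mul, abs_of_pos hε, abs_pow]
      _ ≤ _ := by gcongr
  -- the real case
  have hreal : ∀ (lam : ℝ) (f : E n → ℝ), MemLp f 2 volume →
      WeakEig (fun x : E n => W ‖x‖ - ε * U ‖x‖ ^ 2) lam f → f =ᵐ[volume] 0 := by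
    intro lam f hf h
    rcases le_or_gt lam 0 with hl | hl
    · exact neg_case hn hV hVb (hVpos ε hε hεε) hl hf h
    · by_cases h1 : lam = 1
      · subst h1
        exact hres f hf h
      · exact pos_case hn hv (fun ν => hP.osc ε ν) hl h1 hf h
  -- complex functions
  intro lam f hf h
  have hre : MemLp (fun x => (f x).re) 2 volume := hf.re
  have him : MemLp (fun x => (f x).im) 2 volume := hf.im
  have key : ∀ (φ : E n → ℝ), Test φ →
      Integrable (fun x => f x * ((-(lap φ x) + (W ‖x‖ - ε * U ‖x‖ ^ 2) * φ x : ℝ) : ℂ)) volume ∧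
      Integrable (fun x => f x * ((φ x : ℝ) : ℂ)) volume := by
    intro φ hφ
    refine ⟨int_mulC hf ((ModE.lap_cont hφ).neg.add (hV.mul hφ.1.continuous)) ?_,
      int_mulC hf hφ.1.continuous hφ.2⟩
    exact (ModE.lap_supp hφ).neg.add hφ.2.mul_left
  have h1 : WeakEig (fun x : E n => W ‖x‖ - ε * U ‖x‖ ^ 2) lam (fun x => (f x).re) := by
    intro φ hφ
    have h2 := congrArg Complex.re (h φ hφ.1 hφ.2)
    rw [Complex.re_ofReal_mul] at h2
    have e1 := integral_re (key φ hφ).1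
    have e2 := integral_re (key φ hφ).2
    simp only [RCLike.re_to_complex, Complex.re_mul_ofReal] at e1 e2
    rw [← e1, ← e2] at h2
    exact h2
  have h2 : WeakEig (fun x : E n => W ‖x‖ - ε * U ‖x‖ ^ 2) lam (fun x => (f x).im) := by
    intro φ hφ
    have h2 := congrArg Complex.im (h φ hφ.1 hφ.2)
    rw [Complex.im_ofReal_mul] at h2
    have e1 := integral_im (key φ hφ).1
    have e2 := integral_im (key φ hφ).2
    simp only [RCLike.im_to_complex, Complex.im_mul_ofReal] at e1 e2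
    rw [← e1, ← e2] at h2
    exact h2
  filter_upwards [hreal lam _ hre h1, hreal lam _ him h2] with x hx1 hx2
  exact Complex.ext hx1 hx2

end NLSn
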